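import Mathlib

/-!
# Aronszajn trees, the coloring axiom for trees, coherent colorings
-/

namespace Pool.Agent.CATC

open Set Order

/-- The set of countable ordinals, as a well-ordered type in `Type`: a well-order of type `ω₁`. -/
abbrev Om : Type := (Ordinal.omega 1).ToType

/-- `IsAronszajnTree T ht`: the partial order `T` is a (Hausdorff, rooted) Aronszajn tree with
height function `ht`.  The first three fields say that the predecessors of a node `t` are linearly
ordered and that `ht` maps them order-isomorphically onto the ordinals below `ht t` (so `T` is a
tree and `ht t` is the height of `t`); then: every countable ordinal is the height of some node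
(and all heights are countable ordinals, as `Om` has order type `ω₁`), levels are countable, chains
are countable, and distinct nodes of the same height `δ`, where `δ` is `0` or a limit, have
different sets of predecessors. -/
structure IsAronszajnTree (T : Type) [PartialOrder T] (ht : T → Om) : Prop where
  linear : ∀ t a b : T, a ≤ t → b ≤ t → a ≤ b ∨ b ≤ a
  strictMono : ∀ s t : T, s < t → ht s < ht t
  onto : ∀ t : T, ∀ α < ht t, ∃ s < t, ht s = α
  height : ∀ α : Om, ∃ t : T, ht t = α
  levels : ∀ α : Om, {t : T | ht t = α}.Countable
  chains : ∀ C : Set T, IsChain (· ≤ ·) C → C.Countable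
  hausdorff : ∀ s t : T, ht s = ht t → IsSuccPrelimit (ht t) → (∀ r, r < s ↔ r < t) → s = t

/-- An uncountable antichain. -/
def UncAntichain {T : Type} [PartialOrder T] (A : Set T) : Prop :=
  ¬ A.Countable ∧ ∀ x ∈ A, ∀ y ∈ A, x ≤ y → x = y

/-- The coloring axiom for trees: for every Aronszajn tree `T` and every `K ⊆ T` there is an
uncountable antichain `A` of `T` such that all meets of two distinct elements of `A` are in `K`, or
all of them are outside `K`. -/
def CAT : Prop :=
  ∀ (T : Type) [PartialOrder T] (ht : T → Om), IsAronszajnTree T ht → ∀ K : Set T,
    ∃ A : Set T, UncAntichain A ∧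
      ((∀ x ∈ A, ∀ y ∈ A, x ≠ y → ∃ m, IsGLB {x, y} m ∧ m ∈ K) ∨
       (∀ x ∈ A, ∀ y ∈ A, x ≠ y → ∃ m, IsGLB {x, y} m ∧ m ∉ K))

/-- A function on the countable ordinals is locally constant (that is, continuous for the order
topology and the discrete topology on the values) when its value at every limit `ν` is its
value on an interval `(ν', ν)`. -/
def LocConst {G : Type} (h : Om → G) : Prop :=
  ∀ ν, IsSuccLimit ν → ∃ ν' < ν, ∀ ξ, ν' < ξ → ξ < ν → h ξ = h ν

/-- A coloring `c` of the pairs `α < β` of countable ordinals by elements of a group is coherent
when for all `β < γ` the functions `c(·, β)` and `c(·, γ)` on the ordinals below `β` differ by a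
locally constant function. -/
def Coherent {G : Type} [Group G] (c : Om → Om → G) : Prop :=
  ∀ β γ, β < γ → ∃ h : Om → G, LocConst h ∧ ∀ α < β, c α γ = c α β * h α

end Pool.Agent.CATC
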