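import Pool.Agent.CATC.Fodor

/-!
# The coloring axiom for trees with finitely many colors
-/

open Set Order

namespace Pool.Agent.CATC

variable {T : Type} [PartialOrder T]

/-- The set of nodes below an element of `A`. -/
abbrev Below (A : Set T) : Type := {t : T // ∃ a ∈ A, t ≤ a}

theorem below_countable {ht : T → Om} (hT : IsAronszajnTree T ht) (α : Om) :
    {t : T | ht t < α}.Countable := by
  have h : {t : T | ht t < α} ⊆ ⋃ β ∈ Set.Iio α, {t : T | ht t = β} := by
    intro t h
    exact Set.mem_biUnion (show ht t ∈ Set.Iio α from h) rfl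
  exact ((countable_Iio α).biUnion (fun β _ => hT.levels β)).mono h

theorem exists_high {ht : T → Om} (hT : IsAronszajnTree T ht) {A : Set T} (hA : ¬ A.Countable)
    (α : Om) : ∃ a ∈ A, α < ht a := by
  by_contra hcon
  push Not at hcon
  obtain ⟨β, hβ⟩ := exists_gt_Om α
  exact hA ((below_countable hT β).mono (fun a ha => (hcon a ha).trans_lt hβ))

theorem below_tree {ht : T → Om} (hT : IsAronszajnTree T ht) {A : Set T} (hA : ¬ A.Countable) :
    IsAronszajnTree (Below A) (fun t => ht t.1) where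
  linear := fun t a b h1 h2 => hT.linear t.1 a.1 b.1 h1 h2
  strictMono := fun s t h => hT.strictMono s.1 t.1 h
  onto := by
    intro t α hα
    obtain ⟨s, hs, hs'⟩ := hT.onto t.1 α hα
    obtain ⟨a, ha, hta⟩ := t.2
    exact ⟨⟨s, a, ha, hs.le.trans hta⟩, hs, hs'⟩
  height := by
    intro α
    obtain ⟨a, ha, hα⟩ := exists_high hT hA α
    obtain ⟨s, hs, hs'⟩ := hT.onto a α hα
    exact ⟨⟨s, a, ha, hs.le⟩, hs'⟩
  levels := by
    intro α
    exact (hT.levels α).preimage Subtype.val_injective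
  chains := by
    intro C hC
    have h : (Subtype.val '' C).Countable := by
      apply hT.chains
      rintro _ ⟨x, hx, rfl⟩ _ ⟨y, hy, rfl⟩ hxy
      exact hC hx hy (fun h => hxy (by rw [h]))
    exact (Set.countable_of_injective_of_countable_image
      (Subtype.val_injective.injOn) h)
  hausdorff := by
    intro s t h1 h2 h3
    apply Subtype.ext
    apply hT.hausdorff s.1 t.1 h1 h2
    intro r
    constructor
    · intro hr
      obtain ⟨a, ha, hsa⟩ := s.2
      exact (h3 ⟨r, a, ha, hr.le.trans hsa⟩).1 hr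
    · intro hr
      obtain ⟨a, ha, hta⟩ := t.2
      exact (h3 ⟨r, a, ha, hr.le.trans hta⟩).2 hr

theorem below_glb {A : Set T} (x y m : Below A) (h : IsGLB {x, y} m) :
    IsGLB {x.1, y.1} m.1 := by
  constructor
  · rintro z (rfl | rfl)
    · exact h.1 (Set.mem_insert _ _)
    · exact h.1 (Set.mem_insert_of_mem _ rfl)
  · intro z hz
    have hzx : z ≤ x.1 := hz (Set.mem_insert _ _)
    have hzy : z ≤ y.1 := hz (Set.mem_insert_of_mem _ rfl)
    obtain ⟨a, ha, hxa⟩ := x.2
    have : (⟨z, a, ha, hzx.trans hxa⟩ : Below A) ≤ m := by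
      apply h.2
      rintro w (rfl | rfl)
      · exact hzx
      · exact hzy
    exact this

/-- meets of incomparable nodes below `A` are meets of elements of `A`. -/
theorem below_meet {ht : T → Om} (hT : IsAronszajnTree T ht) {x y a b m m0 : T}
    (hxy : ¬ x ≤ y) (hyx : ¬ y ≤ x) (hxa : x ≤ a) (hyb : y ≤ b) (hm : IsGLB {x, y} m)
    (hm0 : IsGLB {a, b} m0) : m0 = m := by
  have h1 : m0 ≤ a := hm0.1 (Set.mem_insert _ _)
  have h2 : m0 ≤ b := hm0.1 (Set.mem_insert_of_mem _ rfl)
  have h3 : m ≤ x := hm.1 (Set.mem_insert _ _)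
  have h4 : m ≤ y := hm.1 (Set.mem_insert_of_mem _ rfl)
  have h5 : m0 ≤ x := by
    rcases hT.linear a m0 x h1 hxa with h | h
    · exact h
    · exfalso
      rcases hT.linear b x y (h.trans h2) hyb with h' | h'
      · exact hxy h'
      · exact hyx h'
  have h6 : m0 ≤ y := by
    rcases hT.linear b m0 y h2 hyb with h | h
    · exact h
    · exfalso
      rcases hT.linear a x y hxa (h.trans h1) with h' | h'
      · exact hxy h'
      · exact hyx h'
  apply le_antisymm
  · apply hm.2
    rintro w (rfl | rfl)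
    · exact h5
    · exact h6
  · apply hm0.2
    rintro w (rfl | rfl)
    · exact h3.trans hxa
    · exact h4.trans hyb

theorem cat_fin_aux (hCAT : CAT) {X : Type} [DecidableEq X] {ht : T → Om}
    (hT : IsAronszajnTree T ht) (f : T → X) (n : ℕ) :
    ∀ s : Finset X, s.card = n → ∀ A : Set T, UncAntichain A →
      (∀ x ∈ A, ∀ y ∈ A, x ≠ y → ∃ m, IsGLB {x, y} m ∧ f m ∈ s) →
      ∃ A' : Set T, UncAntichain A' ∧ ∃ g, ∀ x ∈ A', ∀ y ∈ A', x ≠ y →
        ∃ m, IsGLB {x, y} m ∧ f m = g := by
  induction n with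
  | zero =>
    intro s hs A hA hAs
    exfalso
    rw [Finset.card_eq_zero] at hs
    subst hs
    -- an uncountable set has two elements
    have : A.Subsingleton := by
      intro x hx y hy
      by_contra hxy
      obtain ⟨m, _, hm⟩ := hAs x hx y hy hxy
      simp at hm
    exact hA.1 this.countable
  | succ n ih =>
    intro s hs A hA hAs
    obtain ⟨g, hg⟩ : ∃ g, g ∈ s := by
      apply Finset.Nonempty.exists_mem
      rw [← Finset.card_pos]; omega
    obtain ⟨B, hB, hBK⟩ := hCAT (Below A) (fun t => ht t.1) (below_tree hT hA.1)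
      {t | f t.1 = g}
    set B' : Set T := Subtype.val '' B with hB'
    have hBunc : UncAntichain B' := by
      constructor
      · intro h
        exact hB.1 (Set.countable_of_injective_of_countable_image
          (Subtype.val_injective.injOn) h)
      · rintro _ ⟨x, hx, rfl⟩ _ ⟨y, hy, rfl⟩ hxy
        rw [hB.2 x hx y hy hxy]
    rcases hBK with hBK | hBK
    · refine ⟨B', hBunc, g, ?_⟩
      rintro _ ⟨x, hx, rfl⟩ _ ⟨y, hy, rfl⟩ hxy
      obtain ⟨m, hm, hmK⟩ := hBK x hx y hy (fun h => hxy (by rw [h]))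
      exact ⟨m.1, below_glb x y m hm, hmK⟩
    · apply ih (s.erase g) (by rw [Finset.card_erase_of_mem hg, hs]; rfl) B' hBunc
      rintro _ ⟨x, hx, rfl⟩ _ ⟨y, hy, rfl⟩ hxy
      have hne : x ≠ y := fun h => hxy (by rw [h])
      obtain ⟨m, hm, hmK⟩ := hBK x hx y hy hne
      refine ⟨m.1, below_glb x y m hm, ?_⟩
      rw [Finset.mem_erase]
      refine ⟨hmK, ?_⟩
      obtain ⟨a, ha, hxa⟩ := x.2
      obtain ⟨b, hb, hyb⟩ := y.2
      have hxy1 : ¬ x.1 ≤ y.1 := fun h => hne (hB.2 x hx y hy h)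
      have hyx1 : ¬ y.1 ≤ x.1 := fun h => hne (hB.2 y hy x hx h).symm
      have hab : a ≠ b := by
        rintro rfl
        rcases hT.linear a x.1 y.1 hxa hyb with h | h
        · exact hxy1 h
        · exact hyx1 h
      obtain ⟨m0, hm0, hm0s⟩ := hAs a ha b hb hab
      rw [← below_meet hT hxy1 hyx1 hxa hyb (below_glb x y m hm) hm0]
      exact hm0s

/-- The coloring axiom for trees for finitely many colors. -/
theorem cat_fin (hCAT : CAT) {X : Type} [Finite X] {ht : T → Om}
    (hT : IsAronszajnTree T ht) (f : T → X) :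
    ∃ A : Set T, UncAntichain A ∧ ∃ g, ∀ x ∈ A, ∀ y ∈ A, x ≠ y →
        ∃ m, IsGLB {x, y} m ∧ f m = g := by
  classical
  have := Fintype.ofFinite X
  obtain ⟨A, hA, hK⟩ := hCAT T ht hT Set.univ
  have hK' : ∀ x ∈ A, ∀ y ∈ A, x ≠ y → ∃ m, IsGLB {x, y} m ∧ f m ∈ (Finset.univ : Finset X) := by
    rcases hK with hK | hK
    · intro x hx y hy hxy
      obtain ⟨m, hm, _⟩ := hK x hx y hy hxy
      exact ⟨m, hm, Finset.mem_univ _⟩
    · intro x hx y hy hxy
      obtain ⟨m, hm, hm'⟩ := hK x hx y hy hxy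
      exact absurd (Set.mem_univ m) hm'
  exact cat_fin_aux hCAT hT f _ Finset.univ rfl A hA hK'

end Pool.Agent.CATC
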