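import Pool.Agent.CATC.Defs

/-!
# Clubs and stationary sets of countable ordinals, Fodor's lemma
-/

open Set Order Cardinal

namespace Pool.Agent.CATC

theorem cof_Om : Order.cof Om ≠ ℵ₀ := by
  rw [Ordinal.cof_toType]
  rw [Cardinal.cof_omega_one]
  exact (Cardinal.aleph0_lt_aleph_one).ne'

theorem mk_Om : #Om = Cardinal.aleph 1 := by
  simp [Om]

theorem unc_Om : ¬ (Set.univ : Set Om).Countable := by
  rw [Set.countable_univ_iff]
  intro h
  have h1 := Cardinal.mk_le_aleph0_iff.2 h
  rw [mk_Om] at h1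
  exact absurd h1 (not_le.2 Cardinal.aleph0_lt_aleph_one)

theorem countable_Iio (a : Om) : (Set.Iio a).Countable := by
  have h : Cardinal.ord #Om = Ordinal.type (α := Om) (· < ·) := by
    rw [mk_Om]; simp [Om]
  have h1 := Cardinal.mk_Iio_lt a h
  rw [mk_Om] at h1
  rw [← Set.countable_coe_iff, ← Cardinal.mk_le_aleph0_iff]
  exact Order.lt_succ_iff.1 (by simpa [← Cardinal.succ_aleph0] using h1)

theorem countable_Iic (a : Om) : (Set.Iic a).Countable := by
  have h : Set.Iic a ⊆ insert a (Set.Iio a) := by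
    intro x hx
    rcases eq_or_lt_of_le (show x ≤ a from hx) with h | h
    · exact Or.inl h
    · exact Or.inr h
  exact ((countable_Iio a).insert a).mono h

/-- countable sets of countable ordinals are bounded. -/
theorem bdd_of_countable (s : Set Om) (hs : s.Countable) : ∃ b, ∀ x ∈ s, x < b := by
  by_contra hcon
  push Not at hcon
  apply unc_Om
  have h : (Set.univ : Set Om) ⊆ ⋃ x ∈ s, Set.Iic x := by
    intro b _
    obtain ⟨x, hx, hb⟩ := hcon b
    exact Set.mem_biUnion hx hb
  exact (hs.biUnion (fun x _ => countable_Iic x)).mono h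

/-- unbounded sets are uncountable. -/
theorem not_countable_of_unbdd (s : Set Om) (hs : ∀ a, ∃ b ∈ s, a ≤ b) : ¬ s.Countable := by
  intro h
  obtain ⟨b, hb⟩ := bdd_of_countable s h
  obtain ⟨x, hx, hbx⟩ := hs b
  exact absurd (hb x hx) (not_lt.2 hbx)

theorem unbdd_of_not_countable (s : Set Om) (hs : ¬ s.Countable) (a : Om) :
    ∃ b ∈ s, a < b := by
  by_contra hcon
  push Not at hcon
  exact hs ((countable_Iic a).mono (fun x hx => hcon x hx))

theorem exists_gt_Om (a : Om) : ∃ b, a < b := by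
  obtain ⟨b, hb⟩ := bdd_of_countable {a} (Set.countable_singleton a)
  exact ⟨b, hb a rfl⟩

/-- sup of a sequence. -/
theorem exists_lub_seq (g : ℕ → Om) : ∃ δ, (∀ n, g n ≤ δ) ∧ ∀ b, b < δ → ∃ n, b < g n := by
  obtain ⟨b0, hb0⟩ := bdd_of_countable (Set.range g) (Set.countable_range g)
  have hne : ({b | ∀ n, g n ≤ b} : Set Om).Nonempty :=
    ⟨b0, fun n => (hb0 _ ⟨n, rfl⟩).le⟩
  refine ⟨WellFounded.min (wellFounded_lt) _ hne, ?_, ?_⟩
  · exact WellFounded.min_mem (wellFounded_lt) _ hne
  · intro b hb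
    by_contra hcon
    push Not at hcon
    exact WellFounded.not_lt_min (wellFounded_lt) (s := {b | ∀ n, g n ≤ b}) (x := b) hcon hb

/-- The limit ordinals form a club. -/
theorem isClub_lim : IsClub {δ : Om | IsSuccLimit δ} := by
  constructor
  · intro d hd hne _ a ha
    obtain ⟨x, hx⟩ := hne
    have hxa : x ≤ a := ha.1 hx
    by_cases had : a ∈ d
    · exact hd had
    · refine ⟨?_, ?_⟩
      · intro hmin
        exact had (by rwa [le_antisymm (hmin hxa) hxa])
      · intro b hb
        obtain ⟨y, hy, hby⟩ := (lt_isLUB_iff ha).1 hb.lt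
        have hya : y ≤ a := ha.1 hy
        rcases eq_or_lt_of_le hya with h | h
        · exact had (h ▸ hy)
        · exact hb.2 hby h
  · intro a
    choose f hf using exists_gt_Om
    obtain ⟨δ, h1, h2⟩ := exists_lub_seq (fun n => f^[n] a)
    have hlt : ∀ n, f^[n] a < δ := by
      intro n
      have h3 := h1 (n + 1)
      simp only [Function.iterate_succ', Function.comp] at h3
      exact (hf _).trans_le h3
    refine ⟨δ, ⟨?_, ?_⟩, (hlt 0).le⟩
    · intro hmin
      exact absurd (hmin (hlt 0).le) (not_le.2 (hlt 0))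
    · intro b hb
      obtain ⟨n, hn⟩ := h2 b hb.lt
      exact hb.2 hn (hlt n)

/-- Diagonal intersections of clubs are clubs. -/
theorem isClub_diag (C : Om → Set Om) (hC : ∀ η, IsClub (C η)) :
    IsClub {δ : Om | ∀ η < δ, δ ∈ C η} := by
  constructor
  · intro d hd hne _ a ha η hη
    have hsub : {x ∈ d | η < x} ⊆ C η := fun x hx => hd hx.1 η hx.2
    obtain ⟨y, hy, hηy⟩ := (lt_isLUB_iff ha).1 hη
    refine (hC η).isLUB_mem hsub ⟨y, hy, hηy⟩ ⟨fun x hx => ha.1 hx.1, ?_⟩
    intro b hb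
    refine ha.2 ?_
    intro x hx
    by_cases h : η < x
    · exact hb ⟨hx, h⟩
    · exact (not_lt.1 h).trans (hηy.le.trans (hb ⟨hy, hηy⟩))
  · intro a
    have hstep : ∀ b : Om, ∃ b' : Om, b < b' ∧ ∀ η ≤ b, ∃ x ∈ C η, b < x ∧ x ≤ b' := by
      intro b
      obtain ⟨b1, hb1⟩ := exists_gt_Om b
      choose e he using fun η => (hC η).isCofinal b1
      obtain ⟨b2, hb2⟩ := bdd_of_countable (insert b (e '' (Set.Iic b)))
        (((countable_Iic b).image e).insert b)
      refine ⟨b2, hb2 b (Set.mem_insert _ _), ?_⟩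
      intro η hη
      exact ⟨e η, (he η).1, hb1.trans_le (he η).2,
        (hb2 (e η) (Set.mem_insert_of_mem _ ⟨η, hη, rfl⟩)).le⟩
    choose f hf1 hf2 using hstep
    obtain ⟨δ, h1, h2⟩ := exists_lub_seq (fun n => f^[n] a)
    have hlt : ∀ n, f^[n] a < δ := by
      intro n
      have h3 := h1 (n + 1)
      simp only [Function.iterate_succ', Function.comp] at h3
      exact (hf1 _).trans_le h3
    have hmono : ∀ n m, n ≤ m → f^[n] a ≤ f^[m] a := by
      intro n m hnm
      induction m, hnm using Nat.le_induction with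
      | base => exact le_rfl
      | succ m hm ih =>
        simp only [Function.iterate_succ', Function.comp]
        exact ih.trans (hf1 _).le
    refine ⟨δ, ?_, (hlt 0).le⟩
    intro η hη
    obtain ⟨n, hn⟩ := h2 η hη
    have hx : ∀ m, ∃ x ∈ C η, f^[n + m] a < x ∧ x ≤ f^[n + m + 1] a := by
      intro m
      obtain ⟨x, hx1, hx2, hx3⟩ := hf2 (f^[n + m] a) η (hn.le.trans (hmono _ _ (by omega)))
      refine ⟨x, hx1, hx2, ?_⟩
      simpa only [Function.iterate_succ', Function.comp] using hx3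
    choose x hx1 hx2 hx3 using hx
    refine (hC η).isLUB_mem (t := Set.range x) ?_ ⟨x 0, 0, rfl⟩ ⟨?_, ?_⟩
    · rintro _ ⟨m, rfl⟩; exact hx1 m
    · rintro _ ⟨m, rfl⟩; exact (hx3 m).trans (h1 _)
    · intro b hb
      by_contra hcon
      obtain ⟨k, hk⟩ := h2 b (not_le.1 hcon)
      have h4 : b < x k := hk.trans_le ((hmono k (n + k) (by omega)).trans (hx2 k).le)
      exact absurd (hb ⟨k, rfl⟩) (not_le.2 h4)

/-- Fodor's lemma. -/
theorem fodor (S : Set Om) (hS : IsStationary S) (r : Om → Om) (hr : ∀ δ ∈ S, r δ < δ) :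
    ∃ η, IsStationary {δ ∈ S | r δ = η} := by
  by_contra hcon
  push Not at hcon
  have h1 : ∀ η, ∃ C : Set Om, IsClub C ∧ Disjoint {δ ∈ S | r δ = η} C := fun η =>
    not_isStationary_iff.1 (hcon η)
  choose C hC hdis using h1
  obtain ⟨δ, hδS, hδ⟩ := hS (isClub_diag C hC)
  exact Set.disjoint_left.1 (hdis (r δ)) ⟨hδS, rfl⟩ (hδ (r δ) (hr δ hδS))

/-- pigeonhole for stationary sets. -/
theorem stat_pigeon {X : Type} [Countable X] (S : Set Om) (hS : IsStationary S) (f : Om → X) :
    ∃ x, IsStationary {δ ∈ S | f δ = x} := by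
  have h : IsStationary (⋃ x : X, {δ ∈ S | f δ = x}) := by
    refine hS.mono ?_
    intro δ hδ
    exact Set.mem_iUnion.2 ⟨f δ, hδ, rfl⟩
  exact (isStationary_iUnion_iff_of_countable cof_Om).1 h

theorem stat_inter_club (S : Set Om) (hS : IsStationary S) (C : Set Om) (hC : IsClub C) :
    IsStationary (S ∩ C) := by
  intro t ht
  obtain ⟨x, hx1, hx2⟩ := hS (hC.inter cof_Om ht)
  exact ⟨x, ⟨hx1, hx2.1⟩, hx2.2⟩

theorem isClub_Ioi (a : Om) : IsClub {x : Om | a < x} := by
  constructor
  · intro d hd hne _ b hb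
    obtain ⟨x, hx⟩ := hne
    exact lt_of_lt_of_le (hd hx) (hb.1 hx)
  · intro b
    obtain ⟨c, hc⟩ := bdd_of_countable {a, b} ((Set.countable_singleton b).insert a)
    exact ⟨c, hc a (by simp), (hc b (by simp)).le⟩

theorem stat_unbdd (S : Set Om) (hS : IsStationary S) : ¬ S.Countable := by
  apply not_countable_of_unbdd
  intro a
  obtain ⟨x, hx, hx2⟩ := hS (isClub_Ioi a)
  exact ⟨x, hx, le_of_lt hx2⟩

/-- If `B` is not stationary then every stationary set is stationary outside `B`. -/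
theorem stat_diff (S B : Set Om) (hS : IsStationary S) (hB : ¬ IsStationary B) :
    IsStationary (S \ B) := by
  obtain ⟨C, hC, hd⟩ := not_isStationary_iff.1 hB
  refine (stat_inter_club S hS C hC).mono ?_
  intro x hx
  exact ⟨hx.1, fun hb => Set.disjoint_left.1 hd hb hx.2⟩

end Pool.Agent.CATC
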