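import Pool.Agent.CATC.Fodor

/-!
# Locally constant functions, coherent colorings and the final pressing down step
-/

open Set Order

namespace Pool.Agent.CATC

variable {G : Type} [Group G]

theorem LocConst.one : LocConst (fun _ : Om => (1 : G)) := by
  intro ν hν
  obtain ⟨b, hb⟩ := not_isMin_iff.1 hν.1
  exact ⟨b, hb, fun _ _ _ => rfl⟩

theorem LocConst.mul {h k : Om → G} (hh : LocConst h) (hk : LocConst k) :
    LocConst (fun ξ => h ξ * k ξ) := by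
  intro ν hν
  obtain ⟨a, ha, ha'⟩ := hh ν hν
  obtain ⟨b, hb, hb'⟩ := hk ν hν
  refine ⟨max a b, max_lt ha hb, ?_⟩
  intro ξ h1 h2
  show h ξ * k ξ = h ν * k ν
  rw [ha' ξ (lt_of_le_of_lt (le_max_left _ _) h1) h2,
    hb' ξ (lt_of_le_of_lt (le_max_right _ _) h1) h2]

theorem LocConst.inv {h : Om → G} (hh : LocConst h) : LocConst (fun ξ => (h ξ)⁻¹) := by
  intro ν hν
  obtain ⟨a, ha, ha'⟩ := hh ν hν
  refine ⟨a, ha, ?_⟩
  intro ξ h1 h2
  show (h ξ)⁻¹ = (h ν)⁻¹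
  rw [ha' ξ h1 h2]

omit [Group G] in
/-- A locally constant function is constant on some final interval `[ν, δ)`. -/
theorem LocConst.last {h : Om → G} (hh : LocConst h) {δ x : Om} (hx : x < δ) :
    ∃ ν < δ, ∃ a, ∀ ξ, ν ≤ ξ → ξ < δ → h ξ = a := by
  by_cases hl : IsSuccLimit δ
  · obtain ⟨ν', h1, h2⟩ := hh δ hl
    obtain ⟨ν, h3, h4⟩ : ∃ ν, ν' < ν ∧ ν < δ := by
      by_contra hcon
      push Not at hcon
      exact hl.2 ν' ⟨h1, fun c hc hc' => absurd hc' (not_lt.2 (hcon c hc))⟩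
    exact ⟨ν, h4, h δ, fun ξ h5 h6 => h2 ξ (h3.trans_le h5) h6⟩
  · have hnm : ¬ IsMin δ := fun hm => absurd (hm hx.le) (not_le.2 hx)
    have hnp : ¬ IsSuccPrelimit δ := fun hp => hl ⟨hnm, hp⟩
    obtain ⟨b, hb⟩ : ∃ b, b ⋖ δ := by
      by_contra hcon
      push Not at hcon
      exact hnp hcon
    refine ⟨b, hb.lt, h b, ?_⟩
    intro ξ h5 h6
    rcases eq_or_lt_of_le h5 with h7 | h7
    · rw [h7]
    · exact absurd h6 (hb.2 h7)

/-- The difference of two sections of a coherent coloring. -/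
theorem Coherent.diff {c : Om → Om → G} (hc : Coherent c) (β γ : Om) :
    ∃ h : Om → G, LocConst h ∧ ∀ α, α < β → α < γ → c α γ = c α β * h α := by
  rcases lt_trichotomy β γ with hlt | heq | hgt
  · obtain ⟨h, h1, h2⟩ := hc β γ hlt
    exact ⟨h, h1, fun α ha _ => h2 α ha⟩
  · subst heq
    exact ⟨fun _ => 1, LocConst.one, fun α _ _ => by rw [mul_one]⟩
  · obtain ⟨h, h1, h2⟩ := hc γ β hgt
    refine ⟨fun ξ => (h ξ)⁻¹, h1.inv, fun α _ ha => ?_⟩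
    rw [h2 α ha]; group

/-- The final pressing down step. -/
theorem final_step [Finite G] (c : Om → Om → G) (S : Set Om) (hS : IsStationary S)
    (k : Om → G)
    (hk : ∀ ε ∈ S, ∃ h : Om → G, LocConst h ∧ ∀ ξ ∈ S, ξ < ε → k ξ = c ξ ε * h ξ) :
    ∃ S' ⊆ S, IsStationary S' ∧ ∃ g : G, ∀ α ∈ S', ∀ β ∈ S', α < β → c α β = g := by
  classical
  -- discard the least element
  obtain ⟨z, hz⟩ : ∃ z : Om, ∀ x, z ≤ x := by
    refine ⟨WellFounded.min (wellFounded_lt (α := Om)) Set.univ ?_, ?_⟩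
    · obtain ⟨x, _⟩ := hS.nonempty
      exact ⟨x, trivial⟩
    · intro x
      exact not_lt.1 (WellFounded.not_lt_min _ (s := Set.univ) (Set.mem_univ x))
  have hS1 : IsStationary (S ∩ {x | z < x}) := stat_inter_club S hS _ (isClub_Ioi z)
  have hex : ∀ ε, ε ∈ S ∩ {x | z < x} → ∃ ν, ∃ a : G, ν < ε ∧
      ∀ ξ ∈ S, ν ≤ ξ → ξ < ε → k ξ = c ξ ε * a := by
    intro ε hε
    obtain ⟨h, h1, h2⟩ := hk ε hε.1
    obtain ⟨ν, h3, a, h4⟩ := h1.last hε.2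
    refine ⟨ν, a, h3, ?_⟩
    intro ξ hξ h5 h6
    rw [h2 ξ hξ h6, h4 ξ h5 h6]
  have hne : Nonempty Om := ⟨z⟩
  choose! r a hr ha using hex
  obtain ⟨η, hη⟩ := fodor _ hS1 r hr
  obtain ⟨⟨a0, k0⟩, hp⟩ := stat_pigeon _ hη (fun ε => (a ε, k ε))
  refine ⟨{δ ∈ {δ ∈ S ∩ {x | z < x} | r δ = η} | (a δ, k δ) = (a0, k0)} ∩ {x | η < x}, ?_,
    stat_inter_club _ hp _ (isClub_Ioi η), k0 * a0⁻¹, ?_⟩
  · intro x hx
    exact hx.1.1.1.1
  · intro α hα β hβ hαβ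
    obtain ⟨⟨⟨hα1, hα2⟩, hα3⟩, hα4⟩ := hα
    obtain ⟨⟨⟨hβ1, hβ2⟩, hβ3⟩, hβ4⟩ := hβ
    have h1 := ha β hβ1 α hα1.1 (by rw [hβ2]; exact le_of_lt hα4) hαβ
    simp only [Prod.mk.injEq] at hα3 hβ3
    rw [hα3.2, hβ3.1] at h1
    rw [h1]; group

end Pool.Agent.CATC
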