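import Pool.Agent.CATC.Tree
import Pool.Agent.CATC.Fin

/-!
# The main theorem
-/

open Set Order

namespace Pool.Agent.CATC

variable {G : Type} [Group G]

/-- pigeonhole for stationary sets, second form. -/
theorem stat_pigeon' {Y : Type} (S : Set Om) (hS : IsStationary S) (f : Om → Y)
    (hf : (f '' S).Countable) : ∃ y, IsStationary {δ ∈ S | f δ = y} := by
  have := hf.to_subtype
  have h : IsStationary (⋃ y : (f '' S), {δ ∈ S | f δ = y.1}) := by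
    refine hS.mono ?_
    intro δ hδ
    exact Set.mem_iUnion.2 ⟨⟨f δ, δ, hδ, rfl⟩, hδ, rfl⟩
  obtain ⟨y, hy⟩ := (isStationary_iUnion_iff_of_countable cof_Om).1 h
  exact ⟨y.1, hy⟩

/-- The color of a node: its last value relative to the coloring. -/
noncomputable def Node.color {c : Om → Om → G} (t : Node c) : G := by
  classical
  exact if h : ∃ a : G, ∃ ν < t.ht, ∀ ξ, ν ≤ ξ → ξ < t.ht → t.val ξ = c ξ t.ht * a then
    h.choose else 1

theorem Node.color_spec {c : Om → Om → G} (t : Node c) {x : Om} (hx : x < t.ht) :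
    ∃ ν < t.ht, ∀ ξ, ν ≤ ξ → ξ < t.ht → t.val ξ = c ξ t.ht * t.color := by
  classical
  have h : ∃ a : G, ∃ ν < t.ht, ∀ ξ, ν ≤ ξ → ξ < t.ht → t.val ξ = c ξ t.ht * a := by
    obtain ⟨h, h1, h2⟩ := t.near
    obtain ⟨ν, h3, a, h4⟩ := h1.last hx
    exact ⟨a, ν, h3, fun ξ h5 h6 => by rw [h2 ξ h6, h4 ξ h5 h6]⟩
  have h' : t.color = h.choose := by
    unfold Node.color
    rw [dif_pos h]
  rw [h']
  exact h.choose_spec

/-- Relation between two nodes of heights above a limit `δ`. -/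
theorem Node.rel {c : Om → Om → G} (hc : Coherent c) (x y : Node c) {δ : Om}
    (hδ : IsSuccLimit δ) (hx : δ < x.ht) (hy : δ < y.ht) :
    ∃ η < δ, ∃ b : G, ∀ ξ, η ≤ ξ → ξ ≤ δ → y.val ξ = x.val ξ * b := by
  obtain ⟨h, h1, h2⟩ := x.near
  obtain ⟨h', h1', h2'⟩ := y.near
  obtain ⟨k, k1, k2⟩ := hc.diff x.ht y.ht
  obtain ⟨ν, hν1, hν2⟩ := (h1.inv.mul (k1.mul h1')) δ hδ
  obtain ⟨η, hη1, hη2⟩ : ∃ η, ν < η ∧ η < δ := by
    by_contra hcon
    push Not at hcon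
    exact hδ.2 ν ⟨hν1, fun z hz hz' => absurd hz' (not_lt.2 (hcon z hz))⟩
  refine ⟨η, hη2, (h δ)⁻¹ * (k δ * h' δ), ?_⟩
  intro ξ h5 h6
  have h7 : (h ξ)⁻¹ * (k ξ * h' ξ) = (h δ)⁻¹ * (k δ * h' δ) := by
    rcases eq_or_lt_of_le h6 with h8 | h8
    · rw [h8]
    · exact hν2 ξ (hη1.trans_le h5) h8
  rw [← h7, h2 ξ (h6.trans_lt hx), h2' ξ (h6.trans_lt hy),
    k2 ξ (h6.trans_lt hx) (h6.trans_lt hy)]
  group

/-- The key step: the elements of a homogeneous antichain agree at almost all limits. -/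
theorem key {c : Om → Om → G} [Finite G] (hc : Coherent c)
    (hch : ∀ C : Set (Node c), IsChain (· ≤ ·) C → C.Countable)
    (A : Set (Node c)) (g : G)
    (hA : ∀ x ∈ A, ∀ y ∈ A, x ≠ y → ∃ m, IsGLB {x, y} m ∧ Node.color m = g) :
    ¬ IsStationary {δ : Om | IsSuccLimit δ ∧ ∃ x ∈ A, ∃ y ∈ A, δ < x.ht ∧ δ < y.ht ∧
      x.val δ ≠ y.val δ} := by
  classical
  intro hB
  set B : Set Om := {δ : Om | IsSuccLimit δ ∧ ∃ x ∈ A, ∃ y ∈ A, δ < x.ht ∧ δ < y.ht ∧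
      x.val δ ≠ y.val δ} with hBdef
  have hne : Nonempty Om := by
    obtain ⟨x, _⟩ := hB.nonempty
    exact ⟨x⟩
  have hneN : Nonempty (Node c) := by
    obtain ⟨x, hx⟩ := hB.nonempty
    obtain ⟨_, y, _⟩ := hx
    exact ⟨y⟩
  have hex : ∀ δ, δ ∈ B → ∃ x y : Node c, ∃ r : Om, ∃ b : G, x ∈ A ∧ y ∈ A ∧ δ < x.ht ∧
      δ < y.ht ∧ r < δ ∧ b ≠ 1 ∧ ∀ ξ, r ≤ ξ → ξ ≤ δ → y.val ξ = x.val ξ * b := by
    rintro δ ⟨hl, x, hx, y, hy, h1, h2, h3⟩
    obtain ⟨η, h4, b, h5⟩ := Node.rel hc x y hl h1 h2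
    refine ⟨x, y, η, b, hx, hy, h1, h2, h4, ?_, h5⟩
    rintro rfl
    have h6 := h5 δ h4.le le_rfl
    rw [mul_one] at h6
    exact h3 h6.symm
  choose! x y r b hxA hyA hx hy hr hb hrel using hex
  obtain ⟨η, hη⟩ := fodor B hB r hr
  set ζ : Om := Order.succ η with hζ
  have hηζ : ∀ ξ, ξ < ζ ↔ ξ ≤ η := by
    intro ξ
    obtain ⟨z, hz⟩ := exists_gt_Om η
    exact Order.lt_succ_iff_of_not_isMax (fun h => absurd (h hz.le) (not_le.2 hz))
  let F : Om → (Om → G) × (Om → G) × G := fun δ =>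
    (fun ξ => if ξ < ζ then (x δ).val ξ else 1, fun ξ => if ξ < ζ then (y δ).val ξ else 1, b δ)
  have hcut : ∀ t : Node c, ζ ≤ t.ht →
      (fun ξ => if ξ < ζ then t.val ξ else 1) ∈ Node.val '' {t : Node c | t.ht = ζ} := by
    intro t ht
    exact ⟨t.res hc ζ ht, rfl, rfl⟩
  have hcount : (F '' {δ ∈ B | r δ = η}).Countable := by
    have hL : (Node.val '' {t : Node c | t.ht = ζ}).Countable := (level_countable ζ).image _
    refine (hL.prod (hL.prod (Set.countable_univ (α := G)))).mono ?_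
    rintro _ ⟨δ, ⟨hδ, hδr⟩, rfl⟩
    have h1 : ζ ≤ δ := by
      by_contra hcon
      have h2 := (hηζ δ).1 (not_le.1 hcon)
      have h3 := hr δ hδ
      rw [hδr] at h3
      exact absurd h2 (not_le.2 h3)
    exact ⟨hcut _ (h1.trans (hx δ hδ).le), hcut _ (h1.trans (hy δ hδ).le), trivial⟩
  obtain ⟨⟨p, p', b0⟩, hS⟩ := stat_pigeon' _ hη F hcount
  set S : Set Om := {δ ∈ {δ ∈ B | r δ = η} | F δ = (p, p', b0)} with hSdef
  -- the nodes `x δ | δ`
  have hnc : ¬ IsChain (· ≤ ·) {t : Node c | t.ht ∈ S ∧ t ≤ x t.ht} := by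
    intro hchain
    apply stat_unbdd S hS
    refine ((hch _ hchain).image Node.ht).mono ?_
    intro δ hδ
    have h1 : δ ≤ (x δ).ht := (hx δ hδ.1.1).le
    refine ⟨(x δ).res hc δ h1, ⟨hδ, Node.res_le _ _ _ _⟩, rfl⟩
  have hinc : ∃ δ ∈ S, ∃ ε ∈ S, ∃ u v : Node c, u.ht = δ ∧ v.ht = ε ∧ u ≤ x δ ∧ v ≤ x ε ∧
      ¬ u ≤ v ∧ ¬ v ≤ u := by
    by_contra hcon
    apply hnc
    intro u hu v hv huv
    by_contra hh
    push Not at hh
    exact hcon ⟨u.ht, hu.1, v.ht, hv.1, u, v, rfl, rfl, hu.2, hv.2, hh.1, hh.2⟩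
  obtain ⟨δ, hδ, ε, hε, u, v, hu, hv, hux, hvx, huv, hvu⟩ := hinc
  obtain ⟨γ, hγ1, hγ2, hγ3, hγ4⟩ := Node.split huv hvu
  rw [hu] at hγ1
  rw [hv] at hγ2
  have hu' : ∀ ξ < δ, u.val ξ = (x δ).val ξ := fun ξ hξ => hux.2 ξ (by rw [hu]; exact hξ)
  have hv' : ∀ ξ < ε, v.val ξ = (x ε).val ξ := fun ξ hξ => hvx.2 ξ (by rw [hv]; exact hξ)
  have hxγ : (x δ).val γ ≠ (x ε).val γ := by
    rw [← hu' γ hγ1, ← hv' γ hγ2]; exact hγ3
  have hxlt : ∀ ξ < γ, (x δ).val ξ = (x ε).val ξ := by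
    intro ξ hξ
    rw [← hu' ξ (hξ.trans hγ1), ← hv' ξ (hξ.trans hγ2)]
    exact hγ4 ξ hξ
  have hFδ := hδ.2
  have hFε := hε.2
  have hF : F δ = F ε := hFδ.trans hFε.symm
  have hFx : ∀ ξ < ζ, (x δ).val ξ = (x ε).val ξ := by
    intro ξ hξ
    have h1 := congrFun (congrArg Prod.fst hF) ξ
    simpa [F, hξ] using h1
  have hFy : ∀ ξ < ζ, (y δ).val ξ = (y ε).val ξ := by
    intro ξ hξ
    have h1 := congrFun (congrArg (fun z => z.2.1) hF) ξ
    simpa [F, hξ] using h1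
  have hbδ : b δ = b ε := congrArg (fun z => z.2.2) hF
  have hζγ : ζ ≤ γ := by
    by_contra hcon
    exact hxγ (hFx γ (not_le.1 hcon))
  have hηγ : η < γ := ((hηζ η).2 le_rfl).trans_le hζγ
  have hrelδ : ∀ ξ, η ≤ ξ → ξ ≤ δ → (y δ).val ξ = (x δ).val ξ * b δ := by
    intro ξ h1 h2
    exact hrel δ hδ.1.1 ξ (by rw [hδ.1.2]; exact h1) h2
  have hrelε : ∀ ξ, η ≤ ξ → ξ ≤ ε → (y ε).val ξ = (x ε).val ξ * b ε := by
    intro ξ h1 h2
    exact hrel ε hε.1.1 ξ (by rw [hε.1.2]; exact h1) h2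
  have hyγ : (y δ).val γ ≠ (y ε).val γ := by
    rw [hrelδ γ hηγ.le hγ1.le, hrelε γ hηγ.le hγ2.le, hbδ]
    intro h
    exact hxγ (mul_right_cancel h)
  have hylt : ∀ ξ < γ, (y δ).val ξ = (y ε).val ξ := by
    intro ξ hξ
    by_cases h : ξ < ζ
    · exact hFy ξ h
    · have h1 : η ≤ ξ := by
        by_contra hcon
        exact h ((hηζ ξ).2 (not_le.1 hcon).le)
      rw [hrelδ ξ h1 (hξ.trans hγ1).le, hrelε ξ h1 (hξ.trans hγ2).le, hbδ, hxlt ξ hξ]
  obtain ⟨m, hm, hmc⟩ := hA (x δ) (hxA δ hδ.1.1) (x ε) (hxA ε hε.1.1)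
    (fun h => hxγ (by rw [h]))
  obtain ⟨m', hm', hmc'⟩ := hA (y δ) (hyA δ hδ.1.1) (y ε) (hyA ε hε.1.1)
    (fun h => hyγ (by rw [h]))
  obtain ⟨e1, e2⟩ := Node.glb_eq hc (hγ1.trans (hx δ hδ.1.1)) (hγ2.trans (hx ε hε.1.1))
    hxγ hxlt hm
  obtain ⟨e1', e2'⟩ := Node.glb_eq hc (hγ1.trans (hy δ hδ.1.1)) (hγ2.trans (hy ε hε.1.1))
    hyγ hylt hm'
  obtain ⟨ν, hν1, hν2⟩ := m.color_spec (x := η) (by rw [e1]; exact hηγ)
  obtain ⟨ν', hν1', hν2'⟩ := m'.color_spec (x := η) (by rw [e1']; exact hηγ)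
  rw [e1, hmc] at hν2
  rw [e1] at hν1
  rw [e1', hmc'] at hν2'
  rw [e1'] at hν1'
  set ξ : Om := max (max ν ν') η with hξ
  have hξγ : ξ < γ := max_lt (max_lt hν1 hν1') hηγ
  have h1 := hν2 ξ ((le_max_left _ _).trans (le_max_left _ _)) hξγ
  have h2 := hν2' ξ ((le_max_right _ _).trans (le_max_left _ _)) hξγ
  rw [e2 ξ hξγ] at h1
  rw [e2' ξ hξγ] at h2
  have h3 := hrelδ ξ (le_max_right _ _) (hξγ.trans hγ1).le
  rw [h2, ← h1] at h3
  have h4 : b δ = 1 := by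
    have h5 : (x δ).val ξ * 1 = (x δ).val ξ * b δ := by rw [mul_one]; exact h3
    exact (mul_left_cancel h5).symm
  exact hb δ hδ.1.1 h4

/-- The coloring axiom for trees implies that coherent colorings of pairs of countable ordinals by
a finite group have stationary homogeneous sets inside every stationary set. -/
theorem main [Finite G] (hCAT : CAT) (c : Om → Om → G) (hc : Coherent c) (S₀ : Set Om)
    (hS₀ : IsStationary S₀) :
    ∃ S ⊆ S₀, IsStationary S ∧ ∃ g : G, ∀ α ∈ S, ∀ β ∈ S, α < β → c α β = g := by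
  classical
  by_cases hch : ∀ C : Set (Node c), IsChain (· ≤ ·) C → C.Countable
  · obtain ⟨A, hA, g, hAg⟩ := cat_fin hCAT (node_tree hc hch) Node.color
    have hkey := key hc hch A g hAg
    set B : Set Om := {δ : Om | IsSuccLimit δ ∧ ∃ x ∈ A, ∃ y ∈ A, δ < x.ht ∧ δ < y.ht ∧
      x.val δ ≠ y.val δ} with hBdef
    have hS1 : IsStationary ((S₀ ∩ {δ : Om | IsSuccLimit δ}) \ B) :=
      stat_diff _ _ (stat_inter_club S₀ hS₀ _ isClub_lim) hkey
    choose τ hτA hτ using fun ξ : Om => exists_high (node_tree hc hch) hA.1 ξ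
    obtain ⟨S', hS', hst, g', hg'⟩ := final_step c _ hS1 (fun ξ => (τ ξ).val ξ) (by
      intro ε hε
      obtain ⟨h, h1, h2⟩ := ((τ ε).res hc ε (hτ ε).le).near
      refine ⟨h, h1, ?_⟩
      intro ξ hξ hξε
      have h3 := h2 ξ hξε
      rw [Node.res_val _ _ _ _ _ hξε] at h3
      have h4 : (τ ξ).val ξ = (τ ε).val ξ := by
        by_contra hcon
        exact hξ.2 ⟨hξ.1.2, τ ξ, hτA ξ, τ ε, hτA ε, hτ ξ, hξε.trans (hτ ε), hcon⟩
      show (τ ξ).val ξ = _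
      rw [h4, h3]
      rfl)
    exact ⟨S', hS'.trans (fun x hx => hx.1.1), hst, g', hg'⟩
  · push Not at hch
    obtain ⟨C, hC, hCc⟩ := hch
    have hhigh : ∀ ξ : Om, ∃ t ∈ C, ξ < Node.ht t := by
      have hinj : Set.InjOn Node.ht C := by
        intro s hs t ht hst
        by_contra hne
        rcases hC hs ht hne with h | h
        · exact hne (Node.eq_of hst h.2)
        · exact hne (Node.eq_of hst.symm h.2).symm
      have hunc : ¬ (Node.ht '' C).Countable := fun h =>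
        hCc (Set.countable_of_injective_of_countable_image hinj h)
      intro ξ
      obtain ⟨_, ⟨t, ht, rfl⟩, h2⟩ := unbdd_of_not_countable _ hunc ξ
      exact ⟨t, ht, h2⟩
    choose τ hτC hτ using hhigh
    exact final_step c S₀ hS₀ (fun ξ => (τ ξ).val ξ) (by
      intro ε hε
      obtain ⟨h, h1, h2⟩ := ((τ ε).res hc ε (hτ ε).le).near
      refine ⟨h, h1, ?_⟩
      intro ξ hξ hξε
      have h3 := h2 ξ hξε
      rw [Node.res_val _ _ _ _ _ hξε] at h3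
      have h4 : (τ ξ).val ξ = (τ ε).val ξ := by
        by_cases hne : τ ξ = τ ε
        · rw [hne]
        · rcases hC (hτC ξ) (hτC ε) hne with h | h
          · exact h.2 ξ (hτ ξ)
          · exact (h.2 ξ (hξε.trans (hτ ε))).symm
      show (τ ξ).val ξ = _
      rw [h4, h3]
      rfl)

end Pool.Agent.CATC
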