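import Pool.Agent.CATC.Loc

/-!
# The tree of a coherent coloring
-/

open Set Order

namespace Pool.Agent.CATC

variable {G : Type} [Group G]

/-- Nodes of height `δ`: functions on the ordinals below `δ` (extended by `1`) which differ from
`c(·, δ)` by a locally constant function. -/
@[ext]
structure Node (c : Om → Om → G) where
  ht : Om
  val : Om → G
  out : ∀ ξ, ht ≤ ξ → val ξ = 1
  near : ∃ h : Om → G, LocConst h ∧ ∀ ξ < ht, val ξ = c ξ ht * h ξ

variable {c : Om → Om → G}

instance : PartialOrder (Node c) where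
  le s t := s.ht ≤ t.ht ∧ ∀ ξ < s.ht, s.val ξ = t.val ξ
  le_refl s := ⟨le_rfl, fun _ _ => rfl⟩
  le_trans s t u h1 h2 := ⟨h1.1.trans h2.1, fun ξ h =>
    (h1.2 ξ h).trans (h2.2 ξ (h.trans_le h1.1))⟩
  le_antisymm s t h1 h2 := by
    have h := le_antisymm h1.1 h2.1
    apply Node.ext h
    funext ξ
    by_cases hξ : ξ < s.ht
    · exact h1.2 ξ hξ
    · rw [s.out ξ (not_lt.1 hξ), t.out ξ (by rw [← h]; exact not_lt.1 hξ)]

theorem Node.le_def (s t : Node c) : s ≤ t ↔ s.ht ≤ t.ht ∧ ∀ ξ < s.ht, s.val ξ = t.val ξ :=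
  Iff.rfl

/-- The restriction of a node. -/
noncomputable def Node.res (hc : Coherent c) (t : Node c) (α : Om) (hα : α ≤ t.ht) : Node c where
  ht := α
  val := by classical exact fun ξ => if ξ < α then t.val ξ else 1
  out := by
    intro ξ hξ
    simp [not_lt.2 hξ]
  near := by
    obtain ⟨h, h1, h2⟩ := t.near
    obtain ⟨k, k1, k2⟩ := hc.diff α t.ht
    refine ⟨fun ξ => k ξ * h ξ, k1.mul h1, ?_⟩
    intro ξ hξ
    simp only [hξ, if_true]
    rw [h2 ξ (hξ.trans_le hα), k2 ξ hξ (hξ.trans_le hα), mul_assoc]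

theorem Node.res_val (hc : Coherent c) (t : Node c) (α : Om) (hα : α ≤ t.ht) (ξ : Om)
    (hξ : ξ < α) : (t.res hc α hα).val ξ = t.val ξ := by
  simp [Node.res, hξ]

theorem Node.res_ht (hc : Coherent c) (t : Node c) (α : Om) (hα : α ≤ t.ht) :
    (t.res hc α hα).ht = α := rfl

theorem Node.res_le (hc : Coherent c) (t : Node c) (α : Om) (hα : α ≤ t.ht) :
    t.res hc α hα ≤ t :=
  ⟨hα, fun ξ hξ => t.res_val hc α hα ξ hξ⟩

theorem Node.res_lt (hc : Coherent c) (t : Node c) (α : Om) (hα : α < t.ht) :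
    t.res hc α hα.le < t := by
  refine lt_of_le_of_ne (t.res_le hc α hα.le) ?_
  intro h
  have h1 := congrArg Node.ht h
  rw [Node.res_ht] at h1
  exact absurd h1 hα.ne

/-- two nodes of the same height agreeing below it are equal. -/
theorem Node.eq_of {s t : Node c} (h : s.ht = t.ht) (h2 : ∀ ξ < s.ht, s.val ξ = t.val ξ) :
    s = t :=
  le_antisymm ((Node.le_def s t).2 ⟨h.le, h2⟩)
    ((Node.le_def t s).2 ⟨h.ge, fun ξ hξ => (h2 ξ (by rw [h]; exact hξ)).symm⟩)

theorem Node.lt_ht {s t : Node c} (h : s < t) : s.ht < t.ht := by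
  rcases eq_or_lt_of_le h.le.1 with h1 | h1
  · exact absurd (Node.eq_of h1 h.le.2) h.ne
  · exact h1

/-- The set of functions on the ordinals below `δ` which are restrictions of locally constant
functions. -/
def locRes (G : Type) [Group G] (δ : Om) : Set (Om → G) :=
  {f | (∀ ξ, δ ≤ ξ → f ξ = 1) ∧ ∃ h : Om → G, LocConst h ∧ ∀ ξ < δ, f ξ = h ξ}

theorem locRes_countable [Finite G] (δ : Om) : (locRes G δ).Countable := by
  classical
  induction δ using WellFoundedLT.induction with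
  | ind δ ih =>
    by_cases hx : ∃ x, x < δ
    · obtain ⟨x, hx⟩ := hx
      have hsub : locRes G δ ⊆ ⋃ ν ∈ Set.Iio δ, ⋃ a : G,
          (fun (f : Om → G) (ξ : Om) => if ξ < ν then f ξ else if ξ < δ then a else 1) ''
            (locRes G ν) := by
        intro f hf
        obtain ⟨hf1, h, hh, hf2⟩ := hf
        obtain ⟨ν, hν, a, ha⟩ := hh.last hx
        refine Set.mem_biUnion (show ν ∈ Set.Iio δ from hν) (Set.mem_iUnion.2 ⟨a, ?_⟩)
        refine ⟨fun ξ => if ξ < ν then f ξ else 1, ⟨?_, h, hh, ?_⟩, ?_⟩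
        · intro ξ hξ
          simp [not_lt.2 hξ]
        · intro ξ hξ
          simp only [hξ, if_true]
          exact hf2 ξ (hξ.trans hν)
        · funext ξ
          by_cases h1 : ξ < ν
          · simp [h1]
          · by_cases h2 : ξ < δ
            · simp only [h1, h2, if_true, if_false]
              rw [hf2 ξ h2, ha ξ (not_lt.1 h1) h2]
            · simp only [h1, h2, if_false]
              rw [hf1 ξ (not_lt.1 h2)]
      refine Set.Countable.mono hsub ?_
      refine (countable_Iio δ).biUnion ?_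
      intro ν hν
      refine Set.countable_iUnion ?_
      intro a
      exact (ih ν hν).image _
    · push Not at hx
      refine (Set.countable_singleton (fun _ => (1 : G))).mono ?_
      intro f hf
      rw [Set.mem_singleton_iff]
      funext ξ
      exact hf.1 ξ (hx ξ)

theorem level_countable [Finite G] (α : Om) : {t : Node c | t.ht = α}.Countable := by
  classical
  have hinj : Set.InjOn (fun (t : Node c) (ξ : Om) => if ξ < α then (c ξ α)⁻¹ * t.val ξ else 1)
      {t : Node c | t.ht = α} := by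
    intro s hs t ht hst
    have hs' : s.ht = α := hs
    have ht' : t.ht = α := ht
    apply Node.eq_of (hs'.trans ht'.symm)
    intro ξ hξ
    have h1 := congrFun hst ξ
    rw [hs'] at hξ
    simp only [hξ, if_true] at h1
    exact mul_left_cancel h1
  refine Set.countable_of_injective_of_countable_image hinj ?_
  refine (locRes_countable (G := G) α).mono ?_
  rintro _ ⟨t, ht, rfl⟩
  have ht' : t.ht = α := ht
  refine ⟨?_, ?_⟩
  · intro ξ hξ
    simp [not_lt.2 hξ]
  · obtain ⟨h, h1, h2⟩ := t.near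
    refine ⟨h, h1, ?_⟩
    intro ξ hξ
    simp only [hξ, if_true]
    rw [h2 ξ (by rw [ht']; exact hξ), ht']
    group

/-- If the tree of `c` has no uncountable chain then it is an Aronszajn tree. -/
theorem node_tree [Finite G] (hc : Coherent c)
    (hch : ∀ C : Set (Node c), IsChain (· ≤ ·) C → C.Countable) :
    IsAronszajnTree (Node c) Node.ht where
  linear := by
    intro t a b ha hb
    rcases le_total a.ht b.ht with h | h
    · left
      exact ⟨h, fun ξ hξ => (ha.2 ξ hξ).trans (hb.2 ξ (hξ.trans_le h)).symm⟩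
    · right
      exact ⟨h, fun ξ hξ => (hb.2 ξ hξ).trans (ha.2 ξ (hξ.trans_le h)).symm⟩
  strictMono := fun s t h => Node.lt_ht h
  onto := fun t α hα => ⟨t.res hc α hα.le, t.res_lt hc α hα, rfl⟩
  height := by
    classical
    intro α
    refine ⟨⟨α, fun ξ => if ξ < α then c ξ α else 1, ?_, fun _ => 1, LocConst.one, ?_⟩, rfl⟩
    · intro ξ hξ
      simp [not_lt.2 hξ]
    · intro ξ hξ
      simp [hξ]
  levels := level_countable
  chains := hch
  hausdorff := by
    intro s t h1 h2 h3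
    apply Node.eq_of h1
    intro ξ hξ
    rw [h1] at hξ
    obtain ⟨η, hη1, hη2⟩ : ∃ η, ξ < η ∧ η < t.ht := by
      by_contra hcon
      push Not at hcon
      exact h2 ξ ⟨hξ, fun x hx hx' => absurd hx' (not_lt.2 (hcon x hx))⟩
    have h4 : s.res hc η (by rw [h1]; exact hη2.le) < s := s.res_lt hc η (by rw [h1]; exact hη2)
    have h5 := ((h3 _).1 h4).le
    have h6 := h5.2 ξ hη1
    rw [Node.res_val _ _ _ _ _ hη1] at h6
    exact h6

/-- The first difference of two incomparable nodes. -/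
theorem Node.split {s t : Node c} (h1 : ¬ s ≤ t) (h2 : ¬ t ≤ s) :
    ∃ γ, γ < s.ht ∧ γ < t.ht ∧ s.val γ ≠ t.val γ ∧ ∀ ξ < γ, s.val ξ = t.val ξ := by
  have hne : ({ξ | ξ < s.ht ∧ ξ < t.ht ∧ s.val ξ ≠ t.val ξ} : Set Om).Nonempty := by
    by_contra hcon
    rw [Set.not_nonempty_iff_eq_empty] at hcon
    have h3 : ∀ ξ, ξ < s.ht → ξ < t.ht → s.val ξ = t.val ξ := by
      intro ξ h4 h5
      by_contra h6
      have : ξ ∈ ({ξ | ξ < s.ht ∧ ξ < t.ht ∧ s.val ξ ≠ t.val ξ} : Set Om) := ⟨h4, h5, h6⟩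
      rw [hcon] at this
      exact this
    rcases le_total s.ht t.ht with h | h
    · exact h1 ⟨h, fun ξ hξ => h3 ξ hξ (hξ.trans_le h)⟩
    · exact h2 ⟨h, fun ξ hξ => (h3 ξ (hξ.trans_le h) hξ).symm⟩
  have hmem := WellFounded.min_mem (wellFounded_lt) _ hne
  refine ⟨_, hmem.1, hmem.2.1, hmem.2.2, ?_⟩
  intro ξ hξ
  by_contra h6
  exact WellFounded.not_lt_min (wellFounded_lt)
    (s := {ξ | ξ < s.ht ∧ ξ < t.ht ∧ s.val ξ ≠ t.val ξ}) (x := ξ)
    ⟨hξ.trans hmem.1, hξ.trans hmem.2.1, h6⟩ hξ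

/-- The meet of two nodes which first differ at `γ`. -/
theorem Node.glb_eq (hc : Coherent c) {s t m : Node c} {γ : Om} (h1 : γ < s.ht) (h2 : γ < t.ht)
    (h3 : s.val γ ≠ t.val γ) (h4 : ∀ ξ < γ, s.val ξ = t.val ξ) (hm : IsGLB {s, t} m) :
    m.ht = γ ∧ ∀ ξ < γ, m.val ξ = s.val ξ := by
  have hms : m ≤ s := hm.1 (Set.mem_insert _ _)
  have hmt : m ≤ t := hm.1 (Set.mem_insert_of_mem _ rfl)
  have h5 : s.res hc γ h1.le ≤ m := by
    apply hm.2
    rintro w (rfl | rfl)
    · exact Node.res_le _ _ _ _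
    · exact ⟨h2.le, fun ξ hξ => (s.res_val hc γ h1.le ξ hξ).trans (h4 ξ hξ)⟩
  have h6 : m.ht ≤ γ := by
    by_contra hcon
    have hcon := not_le.1 hcon
    exact h3 ((hms.2 γ hcon).symm.trans (hmt.2 γ hcon))
  have h7 : m.ht = γ := le_antisymm h6 h5.1
  exact ⟨h7, fun ξ hξ => hms.2 ξ (by rw [h7]; exact hξ)⟩

end Pool.Agent.CATC
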